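import Pool.Agent.N559.FG.Decay
import Pool.Agent.TH794.LL2.Fin2
import Pool.Agent.TH794.FG.Inf
import Pool.Agent.TH794.QE.FreeD
import Pool.Agent.R988.Up

/-! The local law in two dimensions. -/

set_option autoImplicit false
set_option linter.unusedSectionVars false

open scoped BigOperators Topology
open MeasureTheory Filter

namespace Pool.Agent.N559.L2

open Pool.Agent.W788.BK
open Pool.Agent.W788.LD.Spec (S)
open Pool.Agent.H4R2.LO (Zd)
open Pool.Agent.TH794.LL2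
open Pool.Agent.TH794.FG
open Pool.Agent.TH794.QD (GF F0 F1)
open Pool.Agent.TH794.QE
open Pool.Agent.TH794.HK (ph Tg)
open Pool.Agent.TH311.LL2D (Bu CH CH_ge)
open Pool.Agent.N559.FG

variable {d : ℕ}

theorem LG_val (E t : ℝ) (ht : 0 < t) (ur ui : Zd d → ℝ)
    (h : LG d 0 (fun _ => 0) 0 E t ur ui) :
    (ur 0 : ℂ) + Complex.I * (ui 0 : ℂ) = GF (F0 d) ((E : ℂ) + ((t : ℝ) : ℂ) * Complex.I) := by
  obtain ⟨v, hv⟩ : ∃ v, v = (ur 0 : ℂ) + Complex.I * (ui 0 : ℂ) := ⟨_, rfl⟩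
  obtain ⟨z, hz⟩ : ∃ z, z = (E : ℂ) + ((t : ℝ) : ℂ) * Complex.I := ⟨_, rfl⟩
  rw [← hv, ← hz]
  obtain ⟨t', ht'⟩ : ∃ t', t' = min t 1 := ⟨_, rfl⟩
  have ht0 : 0 < t' := by rw [ht']; exact lt_min ht one_pos
  have ht1 : t' ≤ 1 := by rw [ht']; exact min_le_right _ _
  have hzi : t' ≤ z.im := by
    have : z.im = t := by rw [hz]; simp
    rw [this, ht']
    exact min_le_left _ _
  have key : ∀ n : ℕ, ‖v - GF (F0 d) z‖ ≤ (2 * d * t⁻¹ * t⁻¹ + 28 * d / t' ^ 2) *
      (1 / ((n : ℝ) + 1)) := by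
    intro n
    obtain ⟨L, hL⟩ : ∃ L : ℕ, L = 4 * n + 9 := ⟨_, rfl⟩
    have hLne : NeZero L := ⟨by rw [hL]; positivity⟩
    have hn0 : (0 : ℝ) ≤ n := Nat.cast_nonneg n
    have hLr : (L : ℝ) = 4 * n + 9 := by rw [hL]; push_cast; ring
    have hL1 : 4 * ((n : ℝ) + 1) + 4 < L := by
      rw [hLr]
      linarith
    have a1 := freeC2 (L := L) ((n : ℝ) + 1) t ht (by positivity) hL1 E ur ui h
    have a2 := finb0 (L := L) d t' ht0 ht1 z hzi
    rw [← hv, ← hz] at a1
    have e1 : v - GF (F0 d) z = (v - gL d L z) + (gL d L z - GF (F0 d) z) := by ring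
    rw [e1]
    refine (norm_add_le _ _).trans ?_
    have e2 : 28 * (d : ℝ) / L / t' ^ 2 ≤ 28 * d / t' ^ 2 * (1 / ((n : ℝ) + 1)) := by
      have h1 : 28 * (d : ℝ) / L / t' ^ 2 = 28 * d / t' ^ 2 * (1 / (L : ℝ)) := by ring
      rw [h1]
      apply mul_le_mul_of_nonneg_left _ (by positivity)
      apply one_div_le_one_div_of_le (by positivity)
      rw [hLr]
      linarith
    have e3 : 2 * d / ((n : ℝ) + 1) * t⁻¹ * t⁻¹ = 2 * d * t⁻¹ * t⁻¹ * (1 / ((n : ℝ) + 1)) := by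
      ring
    rw [e3] at a1
    rw [add_mul]
    exact add_le_add a1 (a2.trans e2)
  have l1 : Tendsto (fun n : ℕ => (2 * d * t⁻¹ * t⁻¹ + 28 * d / t' ^ 2) *
      (1 / ((n : ℝ) + 1))) atTop (𝓝 0) := by
    have := tendsto_one_div_add_atTop_nhds_zero_nat (𝕜 := ℝ)
    have h2 := this.const_mul (2 * d * t⁻¹ * t⁻¹ + 28 * d / t' ^ 2)
    rwa [mul_zero] at h2
  have h0 : ‖v - GF (F0 d) z‖ ≤ 0 := ge_of_tendsto' l1 key
  exact sub_eq_zero.1 (norm_le_zero_iff.1 h0)

/-- **comparison of two measures in an interval** -/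
theorem compare_loc (m m0 : Measure ℝ) [IsFiniteMeasure m] [IsFiniteMeasure m0]
    (hm1 : m.real Set.univ ≤ 1) (hm01 : m0.real Set.univ ≤ 1) (t K W e0 A B : ℝ) (ht : 0 < t)
    (hAB : A ≤ B) (hK0 : 0 ≤ K) (hW : 4 * t ≤ W) (he0 : 0 ≤ e0)
    (hA : ∀ E : ℝ, |E - A| ≤ W → Po m E t ≤ K ∧ Po m0 E t ≤ K)
    (hB : ∀ E : ℝ, |E - B| ≤ W → Po m E t ≤ K ∧ Po m0 E t ≤ K)
    (he : ∀ E : ℝ, A ≤ E → E ≤ B → |Po m E t - Po m0 E t| ≤ e0) (N : ℕ) :
    |m.real (Set.Icc A B) - m0.real (Set.Icc A B)| ≤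
      e0 * (B - A) + 4 * (((N + 1) * (8 * K * t) + 2 * (1 / 2 : ℝ) ^ N) + 4 * t / W) := by
  have hπ := Real.pi_pos
  have hπ3 := Real.pi_gt_three
  have hW0 : 0 ≤ W / 2 := by linarith
  have e1 := smooth_int m t A B ht hAB
  have e2 := smooth_int m0 t A B ht hAB
  have f1 := err_loc m hm1 t K W B B ht hK0 hW (fun E hE => (hB E hE).1)
    (by rw [sub_self, abs_zero]; exact hW0) N
  have f2 := err_loc m hm1 t K W A A ht hK0 hW (fun E hE => (hA E hE).1)
    (by rw [sub_self, abs_zero]; exact hW0) N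
  have f3 := err_loc m0 hm01 t K W B B ht hK0 hW (fun E hE => (hB E hE).2)
    (by rw [sub_self, abs_zero]; exact hW0) N
  have f4 := err_loc m0 hm01 t K W A A ht hK0 hW (fun E hE => (hA E hE).2)
    (by rw [sub_self, abs_zero]; exact hW0) N
  have e3 : |Real.pi⁻¹ * (∫ E in A..B, Po m E t) -
      Real.pi⁻¹ * ∫ E in A..B, Po m0 E t| ≤ e0 * (B - A) := by
    rw [← mul_sub, ← intervalIntegral.integral_sub (Po_vol m t ht).intervalIntegrable
      (Po_vol m0 t ht).intervalIntegrable, abs_mul, abs_of_pos (inv_pos.2 hπ)]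
    have e4 := intervalIntegral.norm_integral_le_of_norm_le_const (a := A) (b := B)
      (f := fun E => Po m E t - Po m0 E t) (C := e0) (by
        intro E hE
        rw [Set.uIoc_of_le hAB] at hE
        rw [Real.norm_eq_abs]
        exact he E hE.1.le hE.2)
    rw [Real.norm_eq_abs, abs_of_nonneg (by linarith : 0 ≤ B - A)] at e4
    rw [inv_mul_le_iff₀ hπ]
    have : 0 ≤ e0 * (B - A) := mul_nonneg he0 (by linarith)
    nlinarith
  have g1 := abs_sub_le (m.real (Set.Icc A B)) (Real.pi⁻¹ * ∫ E in A..B, Po m E t)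
    (m0.real (Set.Icc A B))
  have g2 := abs_sub_le (Real.pi⁻¹ * ∫ E in A..B, Po m E t) (Real.pi⁻¹ * ∫ E in A..B, Po m0 E t)
    (m0.real (Set.Icc A B))
  rw [abs_sub_comm (Real.pi⁻¹ * ∫ E in A..B, Po m0 E t)] at g2
  linarith

/-- the Poisson integral of the free spectral measure -/
theorem po_free (a : Zd d) (m0 : Measure ℝ) [IsFiniteMeasure m0]
    (hm : Res d (fun _ => 2 * d) a m0) (x t : ℝ) (ht : 0 < t) :
    Po m0 x t = (GF (F0 d) (((2 * d - x : ℝ) : ℂ) + ((t : ℝ) : ℂ) * Complex.I)).im := by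
  obtain ⟨ur, ui, h1, h2⟩ := po_spec (fun _ : Zd d => (2 * d : ℝ)) (fun _ => 0) (2 * d) 0
      (fun x => by ring) a m0 hm x t ht
  have h3 := h1.shift
  have h4 := LG_val (2 * d - x) t ht _ _ h3
  rw [h2, ← h4]
  simp

/-- the Poisson integral from the resolvent in a site -/
theorem po_rs (V : Zd d → ℝ) (a : Zd d) (m : Measure ℝ) [IsFiniteMeasure m]
    (hm : Res d V a m) (x t : ℝ) (ht : 0 < t) :
    ∃ u : Zd d → ℂ, Rs d V a x t u ∧ Po m x t = t * ∑' x, ‖u x‖ ^ 2 := by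
  obtain ⟨u, hu, heq, hint⟩ := hm ((x : ℂ) + (t : ℂ) * Complex.I) (by simp [ht.ne'])
  have hn : ∀ x, ‖u x‖ ^ 2 = (u x).re ^ 2 + (u x).im ^ 2 := by
    intro x
    rw [← Complex.normSq_eq_norm_sq, Complex.normSq_apply]
    ring
  have hsr : Summable fun x => (-(u x).re) ^ 2 := by
    refine Summable.of_nonneg_of_le (fun x => sq_nonneg _) (fun x => ?_) hu
    rw [hn x]
    nlinarith [sq_nonneg (u x).im]
  have hsi : Summable fun x => (u x).im ^ 2 := by
    refine Summable.of_nonneg_of_le (fun x => sq_nonneg _) (fun x => ?_) hu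
    rw [hn x]
    nlinarith [sq_nonneg (u x).re]
  have hLG : LG d 1 (fun x => -V x) a (0 - x) t (fun x => -(u x).re) (fun x => (u x).im) := by
    refine ⟨hsr, hsi, ?_, ?_⟩
    · intro y
      have h3 := congrArg Complex.re (heq y)
      have h4 : ((Pi.single a 1 : Zd d → ℂ) y).re = if y = a then 1 else 0 := by
        by_cases hx : y = a
        · rw [hx, if_pos rfl, Pi.single_eq_same, Complex.one_re]
        · rw [if_neg hx, Pi.single_eq_of_ne hx, Complex.zero_re]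
      rw [h4] at h3
      have h5 : ∑ i : Fin d, (-(u (y + Pi.single i 1)).re + -(u (y - Pi.single i 1)).re) =
          -∑ i : Fin d, ((u (y + Pi.single i 1)).re + (u (y - Pi.single i 1)).re) := by
        rw [← Finset.sum_neg_distrib]
        exact Finset.sum_congr rfl fun i _ => by ring
      rw [h5]
      simp [S] at h3
      linarith
    · intro y
      have h3 := congrArg Complex.im (heq y)
      have h4 : ((Pi.single a 1 : Zd d → ℂ) y).im = 0 := by
        by_cases hx : y = a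
        · rw [hx, Pi.single_eq_same, Complex.one_im]
        · rw [Pi.single_eq_of_ne hx, Complex.zero_im]
      rw [h4] at h3
      simp [S] at h3
      linarith
  refine ⟨u, ⟨hu, fun y => ?_⟩, ?_⟩
  · rw [heq y, Pi.single_apply]
  · have h1 := Po_im m x t ht
    have h2 : ∑' x, (starRingEnd ℂ) ((Pi.single a 1 : Zd d → ℂ) x) * u x = u a := by
      rw [tsum_eq_single a]
      · rw [Pi.single_eq_same, map_one, one_mul]
      · intro x hx
        rw [Pi.single_eq_of_ne hx, map_zero, zero_mul]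
    rw [hint, h2] at h1
    have h3 := hLG.ward
    rw [← h1, ← h3, ← hsr.tsum_add hsi]
    congr 1
    refine tsum_congr fun y => ?_
    rw [hn y]
    ring

end Pool.Agent.N559.L2
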