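import Pool.Agent.N559.L2.Fin
import Pool.Agent.R988.Loc1

/-! The local law in two dimensions, from the law of the resolvent. -/

set_option autoImplicit false
set_option linter.unusedSectionVars false

open scoped BigOperators Topology
open MeasureTheory Filter

namespace Pool.Agent.N559.L2

open Pool.Agent.W788.BK
open Pool.Agent.H4R2.LO (Zd)
open Pool.Agent.W788.BK.Num
open Pool.Agent.TH794.LL2
open Pool.Agent.TH794.FG
open Pool.Agent.TH794.QD (GF F0 F1)
open Pool.Agent.TH794.QE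
open Pool.Agent.TH794.HK (ph Tg)
open Pool.Agent.TH311.LL2D (Bu CH CH_ge)
open Pool.Agent.N559.FG

/-- the conditions on the numbers -/
structure NumL (C Q κ b y : ℝ) : Prop where
  one : 1 ≤ y
  n1 : 4000 * (C + 2) * y * Real.exp (-(81 / 40) * y) ≤ Real.exp (-(1011 / 500) * y)
  n2 : 64 * κ⁻¹ * Real.exp (-(81 / 40) * y) ≤ 1
  n3 : 1000 * κ⁻¹ * Real.exp (-(81 / 40) * y) ≤ Real.exp (-(1011 / 500) * y)
  n4 : 100 * Real.exp (-(1 / 200) * y) ≤ Real.exp (-(1 / 500) * y)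
  n5 : 100 * (Q * (b + 1)) * Real.exp (-(1 / 8) * y) ≤ Real.exp (-(1 / 500) * y)
  n6 : 8 * b * κ⁻¹ * Real.exp (-1 * y) ≤ 1

theorem numL (C Q κ b : ℝ) : ∀ᶠ y : ℝ in atTop, NumL C Q κ b y := by
  filter_upwards [eventually_ge_atTop 1,
    ev2 (4000 * (C + 2)) (-(81 / 40)) (-(1011 / 500)) 1 (by norm_num),
    ev2 (64 * κ⁻¹) (-(81 / 40)) 0 0 (by norm_num),
    ev2 (1000 * κ⁻¹) (-(81 / 40)) (-(1011 / 500)) 0 (by norm_num),
    ev2 100 (-(1 / 200)) (-(1 / 500)) 0 (by norm_num),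
    ev2 (100 * (Q * (b + 1))) (-(1 / 8)) (-(1 / 500)) 0 (by norm_num),
    ev2 (8 * b * κ⁻¹) (-1) 0 0 (by norm_num)] with y h0 h1 h2 h3 h4 h5 h6
  simp only [pow_one, pow_zero, mul_one, zero_mul, Real.exp_zero] at h1 h2 h3 h4 h5 h6
  exact ⟨h0, h1, h2, h3, h4, h5, h6⟩

theorem law2 (κ : ℝ) (hκ : 0 < κ) (hκ1 : κ ≤ 1) (b v : ℝ) (hb : 0 < b) (hv : 0 < v) :
    ∃ lam0 : ℝ, 0 < lam0 ∧
    ∀ (μ : Measure ℝ), IsProbabilityMeasure μ → (∀ᵐ s ∂μ, |s| ≤ b) →
    v ≤ ∫ s, (s - ∫ r, r ∂μ) ^ 2 ∂μ → ∀ lam : ℝ, 0 < lam → lam ≤ lam0 →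
    ∃ G : Set (Zd 2 → ℝ), MeasurableSet G ∧
      1 - Real.exp (-lam ^ (-(1 / 101) : ℝ)) ≤
        (Measure.infinitePi fun _ : Zd 2 => μ).real G ∧
      ∀ ω ∈ G, ∀ a : Zd 2, ‖a‖ ≤ Real.exp (lam ^ (-(1 / 101) : ℝ)) →
        ∀ m m0 : Measure ℝ, IsFiniteMeasure m → IsFiniteMeasure m0 →
        Res 2 (fun x => 2 * ((2 : ℕ) : ℝ) + lam * ω x) a m →
        Res 2 (fun _ => 2 * ((2 : ℕ) : ℝ)) a m0 →
        ∀ E s : ℝ, lam ^ (101 / 50 : ℝ) ≤ s → κ + s ≤ |4 - E| → |4 - E| + s ≤ 4 - κ →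
          |m.real (Set.Icc (E - s) (E + s)) - m0.real (Set.Icc (E - s) (E + s))| ≤
            lam ^ (1 / 500 : ℝ) * s := by
  obtain ⟨γ0, γ1, hB⟩ := Pool.Agent.R988.base 2 le_rfl
  obtain ⟨ka, hka⟩ : ∃ ka, ka = κ / 2 := ⟨_, rfl⟩
  have hka0 : 0 < ka := by rw [hka]; positivity
  have hka1 : ka ≤ 1 := by rw [hka]; linarith
  obtain ⟨hlim, -, hlaw⟩ := hB ka hka0 hka1
  obtain ⟨C, hC, hup⟩ := Pool.Agent.R988.up 2 le_rfl ka hka0 hka1
  obtain ⟨cc, hcc, h3⟩ := hlaw b v 0 hb hv le_rfl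
  have hCH := CH_ge ka
  obtain ⟨Q, hQ⟩ : ∃ Q, Q = 2 * CH ka := ⟨_, rfl⟩
  have hQ0 : 0 < Q := by rw [hQ]; linarith
  have hol := holS0 ka hka0 hka1
  have e4 : 2 * ((2 : ℕ) : ℝ) = 4 := by norm_num
  rw [e4] at h3 ⊢
  have hreg : ∀ E : ℝ, Bu ka E → RegE 2 ka E := fun E hE => Or.inl ⟨rfl, hE.1, hE.2⟩
  have hγ0 : ∀ E : ℝ, Bu ka E → γ0 E = bvl (F0 2) E := fun E hE =>
    tendsto_nhds_unique (hlim E (hreg E hE)).1 (hol.bv E hE)
  have hγC : ∀ E : ℝ, Bu ka E → |(bvl (F0 2) E).im| ≤ C := fun E hE =>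
    (Complex.abs_im_le_norm _).trans (hup E _ (hreg E hE) (hol.bv E hE))
  obtain ⟨y2, hy2⟩ := Filter.eventually_atTop.1 (numL C Q κ b)
  refine ⟨min cc (Real.exp (-(max y2 1))), lt_min hcc (Real.exp_pos _), ?_⟩
  intro μ hμ hμb hvV lam hlam hlam0
  have hl1 : lam ≤ cc := hlam0.trans (min_le_left _ _)
  have hl2 : lam ≤ Real.exp (-(max y2 1)) := hlam0.trans (min_le_right _ _)
  obtain ⟨y, hy⟩ : ∃ y, y = Real.log (1 / lam) := ⟨_, rfl⟩
  have hloglam : Real.log lam = -y := by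
    rw [hy, one_div, Real.log_inv, neg_neg]
  have hyy : max y2 1 ≤ y := by
    have h1 := Real.log_le_log hlam hl2
    rw [Real.log_exp, hloglam] at h1
    linarith
  obtain ⟨k1, n1, n2, n3, n4, n5, n6⟩ := hy2 y ((le_max_left _ _).trans hyy)
  have e1 : lam ^ (101 / 50 : ℝ) = Real.exp (-(101 / 50) * y) := by
    rw [Real.rpow_def_of_pos hlam, hloglam]
    congr 1
    ring
  have e2 : lam ^ (1 / 500 : ℝ) = Real.exp (-(1 / 500) * y) := by
    rw [Real.rpow_def_of_pos hlam, hloglam]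
    congr 1
    ring
  have e2' : lam ^ (1 / 200 : ℝ) = Real.exp (-(1 / 200) * y) := by
    rw [Real.rpow_def_of_pos hlam, hloglam]
    congr 1
    ring
  have e3 : lam ^ (81 / 40 : ℝ) = Real.exp (-(81 / 40) * y) := by
    rw [Real.rpow_def_of_pos hlam, hloglam]
    congr 1
    ring
  have e5 : Real.exp (-1 * y) = lam := by
    rw [neg_one_mul, ← hloglam, Real.exp_log hlam]
  have hlam1 : lam ≤ 1 := by
    rw [← e5]
    exact Real.exp_le_one_iff.2 (by linarith)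
  obtain ⟨M, hM⟩ : ∃ M, M = ∫ r, r ∂μ := ⟨_, rfl⟩
  rw [← hM] at hvV
  have hMb : |M| ≤ b := by
    rw [hM, ← Real.norm_eq_abs]
    have h1 := norm_integral_le_of_norm_le_const (μ := μ) (f := fun s : ℝ => s) (C := b) (by
      filter_upwards [hμb] with s hs
      rw [Real.norm_eq_abs]
      exact hs)
    rw [probReal_univ, mul_one] at h1
    exact h1
  obtain ⟨G, hG, hP, hL⟩ := h3 lam hlam hl1 μ hμ hμb M _ hM.symm rfl hvV
  refine ⟨G, hG, hP, fun ω hω a ha m m0 hm hm0 hr hr0 E s hs hE1 hE2 => ?_⟩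
  obtain ⟨t, ht⟩ : ∃ t, t = Real.exp (-(81 / 40) * y) := ⟨_, rfl⟩
  obtain ⟨ε, hε⟩ : ∃ ε, ε = Real.exp (-(1 / 500) * y) := ⟨_, rfl⟩
  have ht0 : 0 < t := by rw [ht]; positivity
  have hε0 : 0 < ε := by rw [hε]; positivity
  rw [e1] at hs
  have hs0 : 0 < s := (Real.exp_pos _).trans_le hs
  rw [← ht] at n1 n2 n3
  rw [← hε] at n4 n5
  rw [e2, ← hε]
  have hεs : Real.exp (-(1011 / 500) * y) ≤ ε * s := by
    calc Real.exp (-(1011 / 500) * y) = ε * Real.exp (-(101 / 50) * y) := by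
          rw [hε, ex_mul]
          norm_num
      _ ≤ ε * s := by gcongr
  have ht1 : t ≤ 1 := by
    rw [ht]
    exact Real.exp_le_one_iff.2 (by linarith)
  -- the geometry of the window
  have hgeo : ∀ x p : ℝ, |x - p| ≤ κ / 4 → |p - E| ≤ s →
      Bu ka (4 + lam * M - x) ∧ Bu ka (4 - x) := by
    intro x p hx hp
    have hlM : |lam * M| ≤ κ / 8 := by
      rw [abs_mul, abs_of_pos hlam]
      have h1 : 8 * b * κ⁻¹ * lam ≤ 1 := by rw [← e5]; exact n6
      have h2 : lam * b ≤ κ / 8 := by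
        have h4 : 8 * b * κ⁻¹ * lam = 8 * (lam * b) / κ := by
          field_simp
        rw [h4, div_le_one hκ] at h1
        linarith
      calc lam * |M| ≤ lam * b := by gcongr
        _ ≤ κ / 8 := h2
    have g1 : |(4 + lam * M - x) - (4 - E)| ≤ κ / 8 + κ / 4 + s := by
      have h1 : (4 + lam * M - x) - (4 - E) = lam * M - (x - p) - (p - E) := by ring
      rw [h1]
      have h2 := abs_sub (lam * M - (x - p)) (p - E)
      have h3 := abs_sub (lam * M) (x - p)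
      linarith
    have g2 : |(4 - x) - (4 - E)| ≤ κ / 4 + s := by
      have h1 : (4 - x) - (4 - E) = -((x - p) + (p - E)) := by ring
      rw [h1, abs_neg]
      have h2 := abs_add_le (x - p) (p - E)
      linarith
    have k1 : ∀ z : ℝ, |z - (4 - E)| ≤ κ / 2 + s → Bu ka z := by
      intro z hz
      have h1 := abs_sub_abs_le_abs_sub (4 - E) z
      have h2 := abs_sub_abs_le_abs_sub z (4 - E)
      rw [abs_sub_comm (4 - E) z] at h1
      constructor
      · rw [hka]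
        linarith
      · rw [hka]
        linarith
    exact ⟨k1 _ (by linarith), k1 _ (by linarith)⟩
  -- the Poisson integrals
  have p1 : ∀ x : ℝ, Bu ka (4 + lam * M - x) →
      |Po m x t - (bvl (F0 2) (4 + lam * M - x)).im| ≤ ε / 100 := by
    intro x hx
    obtain ⟨u, hu, hPo⟩ := po_rs (fun x => 4 + lam * ω x) a m hr x t ht0
    have h4 := (hL ω hω).2 a ha x ⟨hreg _ hx, by
      rw [show (4 : ℝ) - ka = 4 - ka from rfl]
      exact hx.2⟩ t (by rw [e3, ht]) (by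
        rw [ht, Real.rpow_def_of_pos hlam, hloglam]
        apply Real.exp_le_exp.2
        linarith) u hu 0 (by simp)
    rw [Pool.Agent.R988.Tor.Tg_zero] at h4
    have h5 : ∀ x : Zd 2, ph (0 : Fin 2 → ℝ) (x - a) = 1 := by
      intro x
      unfold ph
      simp
    simp only [h5, one_mul] at h4
    rw [← Complex.ofReal_tsum, ← Complex.ofReal_mul, ← Complex.ofReal_sub, Complex.norm_real,
      Real.norm_eq_abs, ← hPo, hγ0 _ hx, e2'] at h4
    linarith
  have p2 : ∀ x : ℝ, Bu ka (4 - x) → |Po m0 x t - (bvl (F0 2) (4 - x)).im| ≤ Q * t ^ (1 / 8 : ℝ) := by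
    intro x hx
    have h1 := po_free a m0 (by rw [e4]; exact hr0) x t ht0
    rw [e4] at h1
    rw [h1, ← Complex.sub_im]
    refine (Complex.abs_im_le_norm _).trans ?_
    have h2 := hol.lim (((4 - x : ℝ) : ℂ) + ((t : ℝ) : ℂ) * Complex.I) (by simpa using hx)
      (by simpa using ht0) (by simpa using ht1) (4 - x) hx
    rw [← hQ] at h2
    refine h2.trans (le_of_eq ?_)
    rw [add_sub_cancel_left, norm_mul, Complex.norm_I, mul_one, Complex.norm_real,
      Real.norm_of_nonneg ht0.le]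
  have p3 : ∀ x : ℝ, Bu ka (4 + lam * M - x) → Bu ka (4 - x) →
      |(bvl (F0 2) (4 + lam * M - x)).im - (bvl (F0 2) (4 - x)).im| ≤
        Q * (lam * b) ^ (1 / 8 : ℝ) := by
    intro x hx hx'
    rw [← Complex.sub_im]
    refine (Complex.abs_im_le_norm _).trans ?_
    have h2 := hol.lip _ _ hx hx'
    rw [← hQ] at h2
    refine h2.trans ?_
    have h3 : |4 + lam * M - x - (4 - x)| ≤ lam * b := by
      rw [show 4 + lam * M - x - (4 - x) = lam * M by ring, abs_mul, abs_of_pos hlam]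
      gcongr
    gcongr
  have q1 : Q * t ^ (1 / 8 : ℝ) ≤ ε / 100 := by
    have h1 : t ^ (1 / 8 : ℝ) ≤ Real.exp (-(1 / 8) * y) := by
      rw [ht, ← Real.exp_mul]
      apply Real.exp_le_exp.2
      nlinarith
    have h2 : Q * t ^ (1 / 8 : ℝ) ≤ Q * (b + 1) * Real.exp (-(1 / 8) * y) := by
      calc Q * t ^ (1 / 8 : ℝ) ≤ Q * Real.exp (-(1 / 8) * y) := by gcongr
        _ ≤ Q * (b + 1) * Real.exp (-(1 / 8) * y) := by
            gcongr
            nlinarith
    linarith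
  have q2 : Q * (lam * b) ^ (1 / 8 : ℝ) ≤ ε / 100 := by
    have h1 : (lam * b) ^ (1 / 8 : ℝ) ≤ (b + 1) * Real.exp (-(1 / 8) * y) := by
      have h3 : lam ^ (1 / 8 : ℝ) = Real.exp (-(1 / 8) * y) := by
        rw [Real.rpow_def_of_pos hlam, hloglam]
        congr 1
        ring
      rw [Real.mul_rpow hlam.le hb.le, h3, mul_comm]
      apply mul_le_mul_of_nonneg_right _ (Real.exp_pos _).le
      calc b ^ (1 / 8 : ℝ) ≤ (b + 1) ^ (1 / 8 : ℝ) := by
            gcongr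
            linarith
        _ ≤ (b + 1) ^ (1 : ℝ) := by
            apply Real.rpow_le_rpow_of_exponent_le (by linarith) (by norm_num)
        _ = b + 1 := Real.rpow_one _
    have h2 : Q * (lam * b) ^ (1 / 8 : ℝ) ≤ Q * ((b + 1) * Real.exp (-(1 / 8) * y)) := by
      gcongr
    linarith
  have hε1 : ε ≤ 1 := by
    rw [hε]
    exact Real.exp_le_one_iff.2 (by linarith)
  have hK : ∀ x p : ℝ, |x - p| ≤ κ / 4 → |p - E| ≤ s → Po m x t ≤ C + 1 ∧ Po m0 x t ≤ C + 1 := by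
    intro x p hx hp
    obtain ⟨g1, g2⟩ := hgeo x p hx hp
    have a1 := (abs_le.1 (p1 x g1)).2
    have a2 := (abs_le.1 (p2 x g2)).2
    have a3 := (abs_le.1 (hγC _ g1)).2
    have a4 := (abs_le.1 (hγC _ g2)).2
    constructor <;> linarith
  have hmass := mass_spec (fun x => 4 + lam * ω x) a m hr
  have hmass0 := mass_spec (fun _ : Zd 2 => (4 : ℝ)) a m0 hr0
  obtain ⟨N, hN⟩ : ∃ N : ℕ, N = ⌈4 * y⌉₊ := ⟨_, rfl⟩
  have hN1 : 4 * y ≤ N := by rw [hN]; exact Nat.le_ceil _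
  have hN2 : (N : ℝ) ≤ 4 * y + 1 := by
    rw [hN]
    exact (Nat.ceil_lt_add_one (by linarith)).le
  have hpow : (1 / 2 : ℝ) ^ N ≤ t := by
    have h1 : (1 / 2 : ℝ) ^ N = Real.exp (-(N * Real.log 2)) := by
      rw [Real.exp_neg, mul_comm, Real.exp_mul, Real.exp_log (by norm_num), Real.rpow_natCast,
        one_div, inv_pow]
    rw [h1, ht]
    apply Real.exp_le_exp.2
    have h2 := Real.log_two_gt_d9
    have h3 : 4 * y * 0.69 ≤ N * Real.log 2 := mul_le_mul hN1 (by linarith) (by norm_num)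
      (by positivity)
    linarith
  have h4t : 4 * t ≤ κ / 4 := by
    have h1 : 64 * κ⁻¹ * t = 64 * t / κ := by ring
    rw [h1, div_le_one hκ] at n2
    linarith
  have hcmp := compare_loc m m0 hmass hmass0 t (C + 1) (κ / 4) (ε / 25) (E - s) (E + s) ht0
    (by linarith) (by linarith) h4t (by positivity)
    (fun x hx => hK x (E - s) hx (by
      rw [show E - s - E = -s by ring, abs_neg, abs_of_pos hs0]))
    (fun x hx => hK x (E + s) hx (by
      rw [show E + s - E = s by ring, abs_of_pos hs0]))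
    (fun x hx1 hx2 => by
      obtain ⟨g1, g2⟩ := hgeo x x (by rw [sub_self, abs_zero]; positivity) (by
        rw [abs_le]
        constructor <;> linarith)
      have a1 := p1 x g1
      have a2 := p2 x g2
      have a3 := p3 x g1 g2
      have a4 := abs_sub_le (Po m x t) (bvl (F0 2) (4 + lam * M - x)).im (Po m0 x t)
      have a5 := abs_sub_le (bvl (F0 2) (4 + lam * M - x)).im (bvl (F0 2) (4 - x)).im (Po m0 x t)
      rw [abs_sub_comm (bvl (F0 2) (4 - x)).im (Po m0 x t)] at a5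
      linarith) N
  refine hcmp.trans ?_
  have r1 : ε / 25 * (E + s - (E - s)) = 2 / 25 * (ε * s) := by ring
  have r2 : ((N : ℝ) + 1) * (8 * (C + 1) * t) ≤ ε * s / 80 := by
    calc ((N : ℝ) + 1) * (8 * (C + 1) * t) ≤ (6 * y) * (8 * (C + 2) * t) := by
          have h1 : (N : ℝ) + 1 ≤ 6 * y := by linarith
          gcongr
          linarith
      _ = 48 / 4000 * (4000 * (C + 2) * y * t) := by ring
      _ ≤ 48 / 4000 * (ε * s) := by
          apply mul_le_mul_of_nonneg_left (n1.trans hεs) (by norm_num)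
      _ ≤ ε * s / 80 := by
          have : 0 ≤ ε * s := by positivity
          linarith
  have r3 : 2 * (1 / 2 : ℝ) ^ N ≤ ε * s / 100 := by
    have h1 : 1000 * t ≤ ε * s := by
      refine le_trans ?_ (n3.trans hεs)
      have : 1 ≤ κ⁻¹ := (one_le_inv₀ hκ).2 hκ1
      nlinarith
    linarith
  have r4 : 4 * t / (κ / 4) ≤ ε * s / 50 := by
    have h1 : 4 * t / (κ / 4) = 16 / 1000 * (1000 * κ⁻¹ * t) := by
      field_simp
      ring
    rw [h1]
    have h2 := n3.trans hεs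
    have : 0 ≤ ε * s := by positivity
    linarith
  have : 0 ≤ ε * s := by positivity
  rw [r1]
  linarith

end Pool.Agent.N559.L2
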